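import Mathlib

set_option autoImplicit false

namespace Pool.Agent.Results.MP_d9ed39_co.No

open Finset

/-- A finite simple matroid with a finite set of lines (flats of rank 2). -/
def Conf (M : Matroid ℕ) (𝔏 : Finset (Set ℕ)) : Prop :=
  M.E.Finite ∧ (∀ e ∈ M.E, ∀ f ∈ M.E, M.Indep {e, f}) ∧ ∀ l ∈ 𝔏, M.IsFlat l ∧ M.eRk l = 2

def joints (n : ℕ) (M : Matroid ℕ) (𝔏 : Finset (Set ℕ)) : Set ℕ :=
  {x | x ∈ M.E ∧ ∃ l : Fin n → Set ℕ, (∀ i, l i ∈ 𝔏 ∧ x ∈ l i) ∧ (n + 1 : ℕ∞) ≤ M.eRk (⋃ i, l i)}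

noncomputable def J (n L : ℕ) : ℕ :=
  sSup {j | ∃ M 𝔏, Conf M 𝔏 ∧ #𝔏 = L ∧ j = (joints n M 𝔏).ncard}

theorem main {n : ℕ} (hn : 4 ≤ n) {M : Matroid ℕ} {𝔏 : Finset (Set ℕ)} (h : Conf M 𝔏) :
    (joints n M 𝔏).ncard ^ 3 ≤ 3 * #𝔏 ^ 5 := by
  classical
  obtain ⟨h1, h2, h3⟩ := h
  have fin : (joints n M 𝔏).Finite := h1.subset fun x hx => hx.1
  rw [Set.ncard_eq_toFinset_card _ fin]
  set P := fin.toFinset with hP
  have ln : ∀ l ∈ 𝔏, ∀ F, M.IsFlat F → ∀ x ∈ l, ∀ y ∈ l, x ≠ y → x ∈ F → y ∈ F → l ⊆ F := by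
    intro l hl F hF x hx y hy hxy xF yF
    have e := (h3 l hl).1.subset_ground
    have i := h2 x (e hx) y (e hy)
    have b := i.isBasis_of_eRk_ge (X := l) (by simp) (by simp [Set.insert_subset_iff, hx, hy])
      (by rw [(h3 l hl).2, i.eRk_eq_encard, Set.encard_pair hxy])
    exact b.subset_closure.trans (hF.closure ▸
      M.closure_subset_closure (by simp [Set.insert_subset_iff, xF, yF]))
  have out : ∀ x F, ∃ l, x ∈ P → M.eRk F ≤ 4 → l ∈ 𝔏 ∧ x ∈ l ∧ ¬ l ⊆ F := fun x F => by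
    by_contra hc
    push Not at hc
    obtain ⟨hx, hF, -⟩ := hc ∅
    obtain ⟨-, l, l1, l2⟩ := fin.mem_toFinset.1 hx
    have := (l2.trans (M.eRk_mono (Set.iUnion_subset fun i =>
      (hc (l i)).2.2 (l1 i).1 (l1 i).2))).trans hF
    have : n + 1 ≤ 4 := by exact_mod_cast this
    omega
  choose g hg using out
  have hb : ∀ x ∈ P, g x ∅ ∈ 𝔏 ∧ x ∈ g x ∅ := fun x hx =>
    ⟨(hg x ∅ hx (by simp)).1, (hg x ∅ hx (by simp)).2.1⟩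
  have ha : ∀ x ∈ P, g x (g x ∅) ∈ 𝔏 ∧ x ∈ g x (g x ∅) ∧ ¬ g x (g x ∅) ⊆ g x ∅ := fun x hx =>
    hg x _ hx (by rw [(h3 _ (hb x hx).1).2]; norm_num)
  set b := fun x => g x ∅ with hb'
  set a := fun x => g x (b x) with ha'
  set D := fun l => P.filter (b · = l) with hD
  have cnt : #(𝔏.sigma fun l => (D l).offDiag ×ˢ D l) ≤ #(𝔏 ×ˢ 𝔏 ×ˢ 𝔏) := by
    have rk : ∀ x ∈ P, ∀ y ∈ P, M.eRk (M.closure (a x ∪ a y)) ≤ 4 := fun x hx y hy => by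
      rw [M.eRk_closure_eq]
      refine (M.eRk_union_le_eRk_add_eRk _ _).trans ?_
      rw [(h3 _ (ha x hx).1).2, (h3 _ (ha y hy).1).2]
      norm_num
    have zin : ∀ x ∈ P, ∀ y ∈ P, ∀ z ∈ P, b x = b z → b y = b z → x ≠ y →
        z ∈ M.closure (a x ∪ a y) := fun x hx y hy z hz e1 e2 hxy =>
      ln _ (hb z hz).1 _ (M.isFlat_closure _) x (e1 ▸ (hb x hx).2 : x ∈ b z) y
        (e2 ▸ (hb y hy).2 : y ∈ b z) hxy
        (M.mem_closure_of_mem' (Or.inl (ha x hx).2.1) (fin.mem_toFinset.1 hx).1)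
        (M.mem_closure_of_mem' (Or.inr (ha y hy).2.1) (fin.mem_toFinset.1 hy).1) (hb z hz).2
    have uq : ∀ x ∈ P, ∀ x' ∈ P, a x = a x' → b x = b x' → x = x' := fun x hx x' hx' e1 e2 => by
      by_contra hne
      exact (ha x hx).2.2 (ln _ (ha x hx).1 _ (h3 _ (hb x hx).1).1 x (ha x hx).2.1 x'
        (e1 ▸ (ha x' hx').2.1 : x' ∈ a x) hne (hb x hx).2 (e2 ▸ (hb x' hx').2 : x' ∈ b x))
    refine card_le_card_of_injOn (fun p => (a p.2.1.1, a p.2.1.2,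
      g p.2.2 (M.closure (a p.2.1.1 ∪ a p.2.1.2)))) ?_ ?_
    · rintro ⟨l, ⟨x, y⟩, z⟩ hp
      simp only [hD, coe_sigma, Set.mem_sigma_iff, mem_coe, mem_product, mem_offDiag,
        mem_filter] at hp ⊢
      obtain ⟨-, ⟨⟨hx, -⟩, ⟨hy, -⟩, -⟩, hz, -⟩ := hp
      exact ⟨(ha x hx).1, (ha y hy).1, (hg z _ hz (rk x hx y hy)).1⟩
    · rintro ⟨l, ⟨x, y⟩, z⟩ hp ⟨l', ⟨x', y'⟩, z'⟩ hp' e
      simp only [hD, coe_sigma, Set.mem_sigma_iff, mem_coe, mem_product, mem_offDiag,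
        mem_filter, Prod.mk.injEq] at hp hp' e
      obtain ⟨-, ⟨⟨hx, x1⟩, ⟨hy, y1⟩, xy⟩, hz, rfl⟩ := hp
      obtain ⟨-, ⟨⟨hx', x1'⟩, ⟨hy', y1'⟩, xy'⟩, hz', rfl⟩ := hp'
      obtain ⟨e1, e2, e3⟩ := e
      have z1 := zin x hx y hy z hz x1 y1 xy
      have z2 := zin x' hx' y' hy' z' hz' x1' y1' xy'
      rw [← e1, ← e2] at z2 e3
      obtain ⟨c1, c2, c3⟩ := hg z _ hz (rk x hx y hy)
      obtain rfl : z = z' := by_contra fun hne => c3 (ln _ c1 _ (M.isFlat_closure _) z c2 z'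
        (e3 ▸ (hg z' _ hz' (rk x hx y hy)).2.1) hne z1 z2)
      rw [uq x hx x' hx' e1 (x1.trans x1'.symm), uq y hy y' hy' e2 (y1.trans y1'.symm)]
  simp only [card_sigma, card_product, offDiag_card] at cnt
  have s3 : ∑ l ∈ 𝔏, #(D l) ^ 3 ≤ ∑ l ∈ 𝔏, (2 * ((#(D l) * #(D l) - #(D l)) * #(D l)) + 1) :=
    sum_le_sum fun l _ => by
      rcases #(D l) with _ | _ | d
      · simp
      · simp
      · rw [show (d + 1 + 1) * (d + 1 + 1) - (d + 1 + 1) = (d + 2) * (d + 1) by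
          rw [Nat.sub_eq_iff_eq_add (Nat.le_mul_self _)]; ring]
        nlinarith [Nat.zero_le (d ^ 3), Nat.zero_le (d ^ 2)]
  rw [sum_add_distrib, ← mul_sum, sum_const, smul_eq_mul, mul_one] at s3
  rw [card_eq_sum_card_fiberwise (f := b) (t := 𝔏) fun x hx => (hb x hx).1]
  refine (pow_sum_le_card_mul_sum_pow (fun _ _ => Nat.zero_le _) 2).trans ?_
  have : #𝔏 ≤ #𝔏 * (#𝔏 * #𝔏) := by
    rcases #𝔏 with _ | d
    · simp
    · exact Nat.le_mul_of_pos_right _ (by positivity)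
  calc _ ≤ #𝔏 ^ 2 * (3 * (#𝔏 * (#𝔏 * #𝔏))) := Nat.mul_le_mul_left _ (s3.trans (by omega))
    _ = _ := by ring

theorem result (n : ℕ) (hn : 4 ≤ n) :
    (∀ M 𝔏, Conf M 𝔏 → (joints n M 𝔏).ncard ^ 3 ≤ 3 * #𝔏 ^ 5) ∧
    ¬ ∀ ε : ℝ, 0 < ε → ∀ L₀ : ℕ, ∃ L ≥ L₀, (L : ℝ) ^ (2 - ε) ≤ J n L := by
  refine ⟨fun _ _ => main hn, fun H => ?_⟩
  obtain ⟨L, h1, h2⟩ := H (1 / 6) (by norm_num) 10
  have h3 : J n L ^ 3 ≤ 3 * L ^ 5 := by
    rcases {j | ∃ M 𝔏, Conf M 𝔏 ∧ #𝔏 = L ∧ j = (joints n M 𝔏).ncard}.eq_empty_or_nonempty with e | e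
    · simp [J, e]
    · obtain ⟨M, 𝔏, c, rfl, e'⟩ := Nat.sSup_mem e ⟨3 * L ^ 5, by
        rintro _ ⟨M, 𝔏, c, rfl, rfl⟩
        exact (Nat.le_self_pow (by norm_num) _).trans (main hn c)⟩
      rw [J, e']
      exact main hn c
  have h4 := pow_le_pow_left₀ (by positivity) h2 6
  rw [← Real.rpow_natCast, ← Real.rpow_mul (by positivity), show (2 - 1 / 6 : ℝ) * (6 : ℕ) =
    (11 : ℕ) by norm_num, Real.rpow_natCast] at h4
  have h5 : L ^ 11 ≤ J n L ^ 6 := by exact_mod_cast h4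
  have h6 := Nat.pow_le_pow_left h3 2
  have h7 : 0 < L ^ 10 := by positivity
  nlinarith [Nat.mul_le_mul_right (L ^ 10) h1]

end Pool.Agent.Results.MP_d9ed39_co.No
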